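import Pool.Agent.Run7.h55.Final

set_option autoImplicit false

open Run7.h55

/-- Conjugate sets of bounded degree over cyclotomic fields in intervals of length about four.
The predicates `IsConjSet` and `AbDeg` are defined in `Pool.Agent.Run7.h55.Main`. -/
theorem Pool.Agent.Results.MP_f0992b_nt.BoundedAbelianDegree.result (b : ℕ) (a : ℝ) :
    ∃ ε : ℝ, 0 < ε ∧
      {C : Set ℝ | IsConjSet C ∧ AbDeg b C ∧ C ⊆ Set.Icc (a - ε) (a + 4 + ε) ∧
        ¬ ((∃ n : ℤ, a = n) ∧ C ⊆ Set.Icc a (a + 4))}.Finite :=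
  local_gap b a
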