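import Pool.Agent.Run7.h55.ModM

set_option autoImplicit false

open Run7.h55

/-- Conjugate sets in intervals of length about four with two members congruent modulo an integer
at least two. The predicate `IsConjSet` is defined in `Pool.Agent.Run7.h55.Main`. -/
theorem Pool.Agent.Results.MP_f0992b_nt.CongruentConjugates.result (a : ℝ) :
    ∃ ε : ℝ, 0 < ε ∧
      {C : Set ℝ | IsConjSet C ∧ C ⊆ Set.Icc (a - ε) (a + 4 + ε) ∧
        (∃ m : ℕ, 2 ≤ m ∧ ∃ x ∈ C, ∃ y ∈ C, x ≠ y ∧ IsIntegral ℤ ((x - y) / m)) ∧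
        ¬ ((∃ n : ℤ, a = n) ∧ ∀ x ∈ C, 2 * (a + 2) - x ∈ C)}.Finite :=
  cong_local a
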